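import Pool.Agent.MP_b591f0_mp.Mg.XY_X2
import Pool.Agent.MP_b591f0_mp.CDefs

/-! The plane rotator on `ℤ²` has exactly one Gibbs state at every inverse temperature. -/

open MeasureTheory Real

namespace Pool.Agent.Results.MP_b591f0_mp.Unique

open Pool.Agent.MP_b591f0_mp

lemma ker (β : ℝ) (Λ : Finset V) {f : Ω → ℝ} (hf : Measurable f) (η : Ω) :
    (∫ σ, f (glue Λ σ η) * boltz β Λ (glue Λ σ η) ∂(ref Λ)) /
      (∫ σ, boltz β Λ (glue Λ σ η) ∂(ref Λ)) = gam Λ (Ham β Λ) f η := by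
  obtain ⟨c, c0, hc⟩ := bridge Λ
  have m : Measurable fun θ => exp (Ham β Λ θ) := (by fun_prop : Continuous _).measurable
  have hb : ∀ θ : Ω, boltz β Λ θ = exp (Ham β Λ θ) := fun θ => by
    rw [Ham, ← Finset.mul_sum, sum_Ed]
    rfl
  let ω : V → ℝ := fun x => (η x).toReal
  have hω : pm ω = η := funext fun x => Angle.coe_toReal _
  have hg : ∀ σ, (glue Λ σ η : Ω) = pm (patch Λ σ ω) := fun σ => funext fun x => by
    by_cases h : x ∈ Λ
    · refine (dif_pos h).trans ?_
      simp only [pm, patch, h, dif_pos]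
      rfl
    · refine (dif_neg h).trans ?_
      simp only [pm, patch, h, dif_neg, not_false_eq_true]
      exact (Angle.coe_toReal _).symm
  have e1 := hc (fun θ => f θ * exp (Ham β Λ θ)) (hf.mul m) ω
  have e2 := hc _ m ω
  rw [hω] at e1 e2
  rw [gam, ← mul_div_mul_left (nu _ _ _) _ c0.ne', ← e1, ← e2]
  congr 1
  · exact congrArg _ (funext fun σ => by rw [← hg σ]; exact congrArg _ (hb _))
  · exact congrArg _ (funext fun σ => by rw [← hg σ]; exact hb _)

lemma iff_dlr (β : ℝ) (ν : Measure Ω) : IsGibbsState β ν ↔ DLR β ν := by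
  constructor
  · intro h
    refine ⟨h.1, fun Λ f hf => ?_⟩
    obtain ⟨C, hC⟩ := (isCompact_univ (X := Ω)).exists_bound_of_continuousOn hf.continuousOn
    refine (h.2 Λ f hf.measurable ⟨C, fun θ => hC θ (Set.mem_univ _)⟩).trans ?_
    exact congrArg _ (funext fun η => ker β Λ hf.measurable η)
  · intro h
    refine ⟨h.1, fun Λ f hf hb => ?_⟩
    refine (dlr_meas h Λ (F := f) hf hb).trans ?_
    exact congrArg _ (funext fun η => (ker β Λ (f := f) hf η).symm)

lemma uq {β : ℝ} (hβ : 0 < β) {ν ν' : Measure Ω} (hν : DLR β ν) (h : DLR β ν') : ν' = ν := by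
  have h1 := h.1
  have h2 := hν.1
  refine ext_of_forall_integral_eq_of_IsFiniteMeasure fun f => ?_
  have e1 := ex_lm hβ h f.continuous 0
  have e2 := ex_lm hβ hν f.continuous 0
  have t : ∀ θ : Ω, tr 0 θ = θ := fun θ => by funext y; simp [tr]
  simp only [ex, t] at e1 e2
  exact e1.trans e2.symm

theorem result (β : ℝ) (hβ : 0 < β) :
    ∃! ν : Measure (ℤ × ℤ → AddCircle (2 * Real.pi)), IsGibbsState β ν := by
  obtain ⟨ν, hν⟩ := exists_dlr β
  exact ⟨ν, (iff_dlr β ν).2 hν, fun ν' h' => uq hβ hν ((iff_dlr β ν').1 h')⟩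

end Pool.Agent.Results.MP_b591f0_mp.Unique
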